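import Pool.Agent.W812.RB.Stm

/-!
# Disjointness relation of the new sets
-/

set_option autoImplicit false

namespace Pool.Agent.W417.RB

open Finset Pool.Agent.W812.RB

section
variable {G : Type} [AddCommGroup G] [Fintype G] [DecidableEq G] {p : ℕ} [NeZero p]
  (π : Par) {B : ℕ} (F : Fam G B)

theorem mem_glue {F : ℕ → Finset G} {s : ZMod p} {x : ZMod p × G} :
    x ∈ glue F s ↔ x.2 ∈ F ((x.1 + s).val) := by
  unfold glue
  rw [Finset.mem_filter]
  exact ⟨fun h => h.2, fun h => ⟨Finset.mem_univ _, h⟩⟩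

theorem div_add_div_le (a b q : ℕ) : a / q + b / q ≤ (a + b) / q := by
  rcases Nat.eq_zero_or_pos q with rfl | hq
  · simp
  · rw [Nat.le_div_iff_mul_le hq, add_mul]
    exact Nat.add_le_add (Nat.div_mul_le_self a q) (Nat.div_mul_le_self b q)

theorem hq : 1 ≤ π.q := by
  have h1 := π.hr
  have h2 := π.hL
  omega

theorem mem_nK_cases {i : ℕ} {x : ZMod p × G} (hx : x ∈ nK π F i) :
    (x.1.val < π.H * π.q ∧ x.1.val + 1 ≤ i * π.q ∧
      x.2 ∈ F.K (π.t (x.1.val / π.q))) ∨
    (π.P + 1 ≤ x.1.val ∧ π.H + 1 ≤ i ∧ x.1.val + 1 ≤ i * π.q + π.e) := by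
  have hq := hq π
  have hP := π.hP
  have h := mem_glue.1 hx
  rw [add_zero] at h
  unfold sK at h
  split_ifs at h with h1 h2 h3 h4
  · left
    refine ⟨h1, ?_, h⟩
    exact Nat.lt_mul_of_div_lt h2.2 hq
  · simp at h
  · simp at h
  · right
    obtain ⟨-, h5, h6⟩ := h4
    have h9 : π.H + 1 ≤ i := by
      have := Nat.zero_le ((x.1.val - (π.P + 1)) / π.q)
      omega
    refine ⟨by omega, h9, ?_⟩
    set s := x.1.val - (π.P + 1) with hs
    have hs1 : s < (s / π.q + 1) * π.q :=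
      Nat.lt_mul_of_div_lt (Nat.lt_succ_self _) hq
    have h7 : (π.H + s / π.q + 1) * π.q ≤ i * π.q := Nat.mul_le_mul_right _ (by omega)
    have h8 : (π.H + s / π.q + 1) * π.q = π.H * π.q + (s / π.q + 1) * π.q := by ring
    omega
  · simp at h

theorem nK_nZ (hp : p = 2 * π.P + 1) (i₁ i₂ j : ℕ) (hij : i₁ + i₂ ≤ j)
    (x : ZMod p × G) (hx : x ∈ nK π F i₁) (z : ZMod p × G)
    (hz : z ∈ nK π F i₂) : x + z ∉ nZ π F j := by
  intro hw
  have hq := hq π
  have hP := π.hP
  have hx' := mem_nK_cases π F hx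
  have hz' := mem_nK_cases π F hz
  set r1 := x.1.val with hr1
  set r2 := z.1.val with hr2
  have hr1p : r1 < p := ZMod.val_lt _
  have hr2p : r2 < p := ZMod.val_lt _
  have hijq : i₁ * π.q + i₂ * π.q ≤ j * π.q := by
    rw [← add_mul]; exact Nat.mul_le_mul_right _ hij
  -- the key contradiction
  have key : ∀ b, r1 + r2 < π.H * π.q → (r1 + r2) / π.q ≤ b → b ≤ π.H →
      (x + z).2 ∉ F.Z (π.nu b) := by
    intro b h1 h2 h3 h4
    rcases hx' with ⟨_, _, hx3⟩ | ⟨hx1, _⟩
    swap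
    · omega
    rcases hz' with ⟨_, _, hz3⟩ | ⟨hz1, _⟩
    swap
    · omega
    have h5 := div_add_div_le r1 r2 π.q
    exact F.h _ _ _ (π.hnu b h3 _ _ (by omega)) _ hx3 _ hz3 h4
  unfold nZ at hw
  split_ifs at hw with hj
  · set m := j - π.H with hm
    have hmH : m ≤ π.H := by omega
    have hA : (π.H - m) * π.q + m * π.q = π.H * π.q := by
      rw [← add_mul]; congr 1; omega
    have hjm : j * π.q ≤ π.H * π.q + m * π.q := by
      rw [← add_mul]; exact Nat.mul_le_mul_right _ (by omega)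
    have hsum : r1 + r2 + 2 ≤ π.H * π.q + m * π.q + π.e := by
      rcases hx' with ⟨_, hx2, _⟩ | ⟨_, hx2, hx3⟩ <;> rcases hz' with ⟨_, hz2, _⟩ | ⟨_, hz2, hz3⟩ <;>
        omega
    have hval : ((x + z).1 + (((π.H - m) * π.q + π.e : ℕ) : ZMod p)).val =
        r1 + r2 + ((π.H - m) * π.q + π.e) := by
      have h1 : (x + z).1 + (((π.H - m) * π.q + π.e : ℕ) : ZMod p) =
          ((r1 + r2 + ((π.H - m) * π.q + π.e) : ℕ) : ZMod p) := by
        rw [hr1, hr2]; push_cast; simp
      rw [h1, ZMod.val_natCast, Nat.mod_eq_of_lt]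
      omega
    have hw' := mem_glue.1 hw
    rw [hval] at hw'
    unfold sZ at hw'
    rw [if_neg (by omega)] at hw'
    split_ifs at hw' with h1 h2 h3
    · rw [Nat.add_sub_cancel] at hw'
      have h4 : r1 + r2 < m * π.q := by omega
      refine key _ (by omega) le_rfl ?_ hw'
      have : (r1 + r2) / π.q < m := by
        rw [Nat.div_lt_iff_lt_mul hq]; exact h4
      omega
    · simp at hw'
    · set s := r1 + r2 + ((π.H - m) * π.q + π.e) - (π.P + 1) with hs
      have hs' : r1 + r2 = s + m * π.q := by omega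
      have hs1 : s < (s / π.q + 1) * π.q :=
        Nat.lt_mul_of_div_lt (Nat.lt_succ_self _) hq
      have h5 : (s / π.q + 1) * π.q ≤ (π.H - m) * π.q := Nat.mul_le_mul_right _ (by omega)
      refine key _ (by omega) ?_ ?_ hw'
      · rw [hs', Nat.add_mul_div_right _ _ hq]
        omega
      · omega
    · simp at hw'
  · set m := j - 2 * π.H with hm
    have hjm : j * π.q = 2 * (π.H * π.q) + m * π.q := by
      have : j = 2 * π.H + m := by omega
      rw [this]; ring
    have hsum : r1 + r2 + 2 ≤ j * π.q + 2 * π.e := by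
      rcases hx' with ⟨_, hx2, _⟩ | ⟨_, hx2, hx3⟩ <;> rcases hz' with ⟨_, hz2, _⟩ | ⟨_, hz2, hz3⟩ <;>
        omega
    have hw' := mem_glue.1 hw
    rw [add_zero] at hw'
    have hval : ((x + z).1).val = (r1 + r2) % p := by
      rw [Prod.fst_add, ZMod.val_add]
    rw [hval] at hw'
    unfold sY at hw'
    split_ifs at hw' with h1
    swap
    · simp at hw'
    obtain ⟨h1, -, h2⟩ := h1
    rcases Nat.lt_or_ge (r1 + r2) p with h3 | h3
    · rw [Nat.mod_eq_of_lt h3] at h1 h2 hw'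
      refine key _ h1 le_rfl ?_ hw'
      have : (r1 + r2) / π.q < π.H := by
        rw [Nat.div_lt_iff_lt_mul hq]; exact h1
      omega
    · have h4 : (r1 + r2) % p = r1 + r2 - p := by
        rw [Nat.mod_eq_sub_mod h3, Nat.mod_eq_of_lt (by omega)]
      rw [h4] at h2
      have h5 : (r1 + r2 - p) / π.q < m := by
        rw [Nat.div_lt_iff_lt_mul hq]; omega
      omega

end

theorem stepRel : StepRelStm := by
  intro G _ _ _ p _ π B F hp i₁ i₂ j hij x hx z hz
  exact nK_nZ π F hp i₁ i₂ j hij x hx z hz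

end Pool.Agent.W417.RB
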